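import Pool.Agent.Helper3.WT.Defs

/-! Project WT, piece C3: the upper bound of the representation function. -/

set_option autoImplicit false

namespace Pool.Agent.Helper41.WT

open Finset Filter
open Pool.Agent.Helper48.ET
open Pool.Agent.Helper3.WT

section core

variable (σ : Sys)

theorem fac_ge (k : ℕ) : 2 ≤ (2 * σ.p k) ^ (2 * σ.M k) := by
  have h1 : 1 ≤ σ.p k := by have := (σ.comp k).lt_p; omega
  have h2 : 2 ≤ σ.M k := (σ.comp k).two_le
  calc 2 ≤ 2 * σ.p k := by omega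
    _ = (2 * σ.p k) ^ 1 := (pow_one _).symm
    _ ≤ (2 * σ.p k) ^ (2 * σ.M k) := Nat.pow_le_pow_right (by omega) (by omega)

theorem W_succ (k : ℕ) : σ.W (k + 1) = σ.W k * (2 * σ.p k) ^ (2 * σ.M k) := by
  unfold Sys.W; rw [prod_range_succ]

theorem W_pos' (k : ℕ) : 1 ≤ σ.W k := by
  induction k with
  | zero => simp [Sys.W]
  | succ k ih =>
    rw [W_succ]
    exact Nat.one_le_iff_ne_zero.2 (Nat.mul_ne_zero (by omega) (by have := fac_ge σ k; omega))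

theorem W_lt (k : ℕ) : σ.W k < σ.W (k + 1) := by
  rw [W_succ]
  have h1 := W_pos' σ k
  have h2 := fac_ge σ k
  nlinarith

theorem W_strict : StrictMono σ.W :=
  strictMono_nat_of_lt_succ (W_lt σ)

theorem exists_level {K0 m : ℕ} (hm : σ.W K0 ≤ m) :
    ∃ K, K0 ≤ K ∧ σ.W K ≤ m ∧ m < σ.W (K + 1) := by
  have hex : ∃ k, m < σ.W k := ⟨m + 1, lt_of_lt_of_le (Nat.lt_succ_self m)
    ((W_strict σ).id_le (m + 1))⟩
  classical
  have h1 := Nat.find_spec hex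
  have hpos : K0 < Nat.find hex := by
    by_contra h
    push Not at h
    have := (W_strict σ).monotone h
    omega
  refine ⟨Nat.find hex - 1, by omega, ?_, ?_⟩
  · have := Nat.find_min hex (m := Nat.find hex - 1) (by omega)
    omega
  · rw [show Nat.find hex - 1 + 1 = Nat.find hex by omega]; exact h1

theorem log_ge {n : ℕ → ℕ} (hM : ∀ k, σ.M k = 2 ^ n (k + 1)) {K m : ℕ} (hK : 1 ≤ K) (hm : σ.W K ≤ m) :
    (2 : ℝ) ^ (n K) ≤ Real.log m := by
  obtain ⟨k, rfl⟩ : ∃ k, K = k + 1 := ⟨K - 1, by omega⟩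
  have h1 : (2 * σ.p k) ^ (2 * σ.M k) ≤ m := by
    refine le_trans ?_ hm
    rw [W_succ]
    exact Nat.le_mul_of_pos_left _ (W_pos' σ k)
  have hp1 : 1 ≤ σ.p k := by have := (σ.comp k).lt_p; omega
  have h2 : ((2 : ℝ)) ^ (2 * σ.M k) ≤ (m : ℝ) := by
    have : (2 : ℕ) ^ (2 * σ.M k) ≤ m :=
      le_trans (Nat.pow_le_pow_left (by omega) _) h1
    exact_mod_cast this
  have h3 : Real.log ((2 : ℝ) ^ (2 * σ.M k)) ≤ Real.log m :=
    Real.log_le_log (by positivity) h2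
  rw [Real.log_pow] at h3
  have h4 : (1 : ℝ) ≤ 2 * Real.log 2 := by
    have := Real.log_two_gt_d9
    linarith
  have h5 : ((σ.M k : ℕ) : ℝ) = (2 : ℝ) ^ (n (k + 1)) := by
    rw [hM]; push_cast; rfl
  push_cast at h3
  rw [h5] at h3
  have h6 : (0 : ℝ) < (2 : ℝ) ^ (n (k + 1)) := by positivity
  nlinarith

theorem prod_G {e : ℝ} {K : ℕ} {n : ℕ → ℕ}
    (h : ∑ j ∈ range (K + 1), Real.logb 2 (σ.G j : ℝ) ≤ e * n K) :
    ((∏ j ∈ range (K + 1), σ.G j : ℕ) : ℝ) ≤ (2 : ℝ) ^ (e * (n K : ℝ)) := by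
  have hpos : ∀ j, (0 : ℝ) < (σ.G j : ℝ) := fun j => by
    have := (σ.comp j).G_pos
    exact_mod_cast this
  have h1 : ((∏ j ∈ range (K + 1), σ.G j : ℕ) : ℝ) =
      (2 : ℝ) ^ (∑ j ∈ range (K + 1), Real.logb 2 (σ.G j : ℝ)) := by
    rw [Real.rpow_sum_of_pos (by norm_num)]
    push_cast
    refine prod_congr rfl fun j _ => ?_
    rw [Real.rpow_logb (by norm_num) (by norm_num) (hpos j)]
  rw [h1]
  exact Real.rpow_le_rpow_of_exponent_le (by norm_num) h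

end core

/-- WT-C3 (only `Sized.mono` and `Sized.M_eq` are used: apply as
`upper hs.mono hs.M_eq hG hrep`) -/
theorem upper {σ : Sys} {n : ℕ → ℕ} (hn : ∀ k, n k < n (k + 1))
    (hM : ∀ k, σ.M k = 2 ^ n (k + 1))
    (hG : ∀ e : ℝ, 0 < e → ∀ᶠ k in atTop,
      ∑ j ∈ range (k + 1), Real.logb 2 (σ.G j : ℝ) ≤ e * n k)
    (hrep : ∀ K m, m < σ.W (K + 1) → rp σ.A σ.A m ≤ 2 * ∏ j ∈ range (K + 1), σ.G j) :
    ∀ e : ℝ, 0 < e → ∀ᶠ m : ℕ in atTop, (rp σ.A σ.A m : ℝ) ≤ Real.log m ^ e := by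
  intro e he
  have hmono : StrictMono n := strictMono_nat_of_lt_succ hn
  obtain ⟨K1, hK1⟩ := eventually_atTop.1 (hG (e / 2) (by positivity))
  obtain ⟨K2, hK2⟩ := exists_nat_gt (2 / e)
  set K0 := max (max K1 K2) 1 with hK0
  refine eventually_atTop.2 ⟨σ.W K0, fun m hm => ?_⟩
  obtain ⟨K, hKK, hWm, hmW⟩ := exists_level σ hm
  have hK1K : K1 ≤ K := by omega
  have hK2K : K2 ≤ K := by omega
  have h1K : 1 ≤ K := by omega
  have hlog := log_ge σ hM h1K hWm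
  have hprod := prod_G σ (hK1 K hK1K)
  have hr : (rp σ.A σ.A m : ℝ) ≤ 2 * ((∏ j ∈ range (K + 1), σ.G j : ℕ) : ℝ) := by
    have := hrep K m hmW
    exact_mod_cast this
  have hnK : (K : ℝ) ≤ (n K : ℝ) := by exact_mod_cast hmono.id_le K
  have h2 : (1 : ℝ) ≤ (e / 2) * (n K : ℝ) := by
    have h3 : 2 / e < (n K : ℝ) := lt_of_lt_of_le hK2 (le_trans (by exact_mod_cast hK2K) hnK)
    rw [div_lt_iff₀ he] at h3
    linarith
  calc (rp σ.A σ.A m : ℝ) ≤ 2 * ((∏ j ∈ range (K + 1), σ.G j : ℕ) : ℝ) := hr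
    _ ≤ 2 * (2 : ℝ) ^ ((e / 2) * (n K : ℝ)) := by
        exact mul_le_mul_of_nonneg_left hprod (by norm_num)
    _ = (2 : ℝ) ^ (1 + (e / 2) * (n K : ℝ)) := by
        rw [Real.rpow_add (by norm_num), Real.rpow_one]
    _ ≤ (2 : ℝ) ^ ((n K : ℝ) * e) := by
        refine Real.rpow_le_rpow_of_exponent_le (by norm_num) ?_
        linarith
    _ = ((2 : ℝ) ^ (n K)) ^ e := by
        rw [Real.rpow_mul (by norm_num), Real.rpow_natCast]
    _ ≤ Real.log m ^ e := Real.rpow_le_rpow (by positivity) hlog he.le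

end Pool.Agent.Helper41.WT
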